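import Pool.Agent.Helper55.PC.Base

/-!
# Block B8 of MP_cf7fa9_pr: a second moment estimate for parities
-/

namespace Pool.Agent.Helper55.PC

open Finset
open scoped Classical

namespace B8

variable {K X : Type}

/-- parity of the bits with the key `γ` -/
noncomputable def par (S : Finset ℕ) (key : ℕ → K) {t : ℕ} (η : Fin t → Bool) (γ : K) : ZMod 2 :=
  ∑ s ∈ S.filter (fun s => key s = γ), bt (extB η s)

/-- bit families with prescribed parities -/
noncomputable def A (S : Finset ℕ) (key : ℕ → K) (τ : K → ZMod 2) (t : ℕ) (G : Finset K) :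
    Finset (Fin t → Bool) :=
  univ.filter (fun η => ∀ γ ∈ G, par S key η γ = τ γ)

lemma bt_not (b : Bool) : bt (!b) = bt b + 1 := by
  cases b
  · rfl
  · unfold bt
    simp
    decide

/-- flip one bit -/
def flip {t : ℕ} (i : Fin t) (η : Fin t → Bool) : Fin t → Bool := Function.update η i (!η i)

lemma flip_flip {t : ℕ} (i : Fin t) (η : Fin t → Bool) : flip i (flip i η) = η := by
  unfold flip
  simp

lemma extB_flip {t : ℕ} (i : Fin t) (η : Fin t → Bool) (s : ℕ) :
    extB (flip i η) s = if s = i then !(extB η s) else extB η s := by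
  unfold extB flip
  by_cases h : s < t
  · by_cases h2 : s = i
    · subst h2
      simp
    · simp only [h, dite_true, h2, if_false]
      rw [Function.update_of_ne]
      intro h3
      apply h2
      rw [← h3]
  · have h2 : s ≠ i := fun h3 => h (h3 ▸ i.2)
    simp [h, h2]

lemma par_flip_same (S : Finset ℕ) (key : ℕ → K) {t : ℕ} (i : Fin t) (η : Fin t → Bool)
    (hi : (i : ℕ) ∈ S) : par S key (flip i η) (key i) = par S key η (key i) + 1 := by
  unfold par
  have hm : (i : ℕ) ∈ S.filter (fun s => key s = key i) := by simp [hi]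
  rw [← Finset.add_sum_erase _ _ hm, ← Finset.add_sum_erase _ (fun s => bt (extB η s)) hm]
  have h1 : bt (extB (flip i η) i) = bt (extB η i) + 1 := by
    rw [extB_flip]; simp [bt_not]
  have h2 : ∑ s ∈ (S.filter (fun s => key s = key i)).erase i, bt (extB (flip i η) s) =
      ∑ s ∈ (S.filter (fun s => key s = key i)).erase i, bt (extB η s) := by
    apply Finset.sum_congr rfl
    intro s hs
    rw [extB_flip, if_neg (Finset.ne_of_mem_erase hs)]
  rw [h1, h2]
  ring

lemma par_flip_other (S : Finset ℕ) (key : ℕ → K) {t : ℕ} (i : Fin t) (η : Fin t → Bool)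
    (γ : K) (h : key i ≠ γ) : par S key (flip i η) γ = par S key η γ := by
  unfold par
  apply Finset.sum_congr rfl
  intro s hs
  rw [extB_flip, if_neg]
  rintro rfl
  exact h (Finset.mem_filter.1 hs).2

lemma zmod2_cases (a : ZMod 2) : a = 0 ∨ a = 1 := by
  fin_cases a
  · left; rfl
  · right; rfl

lemma zmod2_ne (a b : ZMod 2) : a ≠ b ↔ a + 1 = b := by
  revert a b; decide

lemma card_A (S : Finset ℕ) (key : ℕ → K) (τ : K → ZMod 2) (t : ℕ) (hS : S ⊆ range t)
    (G : Finset K) (hit : ∀ γ ∈ G, ∃ s ∈ S, key s = γ) :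
    (A S key τ t G).card * 2 ^ G.card = 2 ^ t := by
  induction G using Finset.induction_on with
  | empty =>
    unfold A
    simp
  | insert γ G hγ ih =>
    have ih' := ih (fun g hg => hit g (Finset.mem_insert_of_mem hg))
    obtain ⟨s, hs, hks⟩ := hit γ (Finset.mem_insert_self _ _)
    have hst : s < t := Finset.mem_range.1 (hS hs)
    set i : Fin t := ⟨s, hst⟩ with hi
    have hki : key i = γ := hks
    have hiS : (i : ℕ) ∈ S := hs
    -- the complement in `A G`
    have hsplit : (A S key τ t G).card = (A S key τ t (insert γ G)).card +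
        ((A S key τ t G).filter (fun η => ¬ par S key η γ = τ γ)).card := by
      have h1 : A S key τ t (insert γ G) = (A S key τ t G).filter (fun η => par S key η γ = τ γ) := by
        ext η
        simp only [A, Finset.mem_filter, Finset.mem_univ, true_and, Finset.mem_insert,
          forall_eq_or_imp]
        tauto
      rw [h1]
      exact (Finset.card_filter_add_card_filter_not _).symm
    have hbij : ((A S key τ t G).filter (fun η => ¬ par S key η γ = τ γ)).card =
        (A S key τ t (insert γ G)).card := by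
      refine Finset.card_bij (fun η _ => flip i η) ?_ ?_ ?_
      · intro η hη
        simp only [A, Finset.mem_filter, Finset.mem_univ, true_and, Finset.mem_insert,
          forall_eq_or_imp] at hη ⊢
        refine ⟨?_, ?_⟩
        · rw [← hki, par_flip_same S key i η hiS, hki]
          exact (zmod2_ne _ _).1 hη.2
        · intro g hg
          rw [par_flip_other S key i η g (by rw [hki]; rintro rfl; exact hγ hg)]
          exact hη.1 g hg
      · intro η _ η' _ h
        have := congrArg (flip i) h
        rwa [flip_flip, flip_flip] at this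
      · intro η hη
        refine ⟨flip i η, ?_, flip_flip i η⟩
        simp only [A, Finset.mem_filter, Finset.mem_univ, true_and, Finset.mem_insert,
          forall_eq_or_imp] at hη ⊢
        refine ⟨?_, ?_⟩
        · intro g hg
          rw [par_flip_other S key i η g (by rw [hki]; rintro rfl; exact hγ hg)]
          exact hη.2 g hg
        · rw [← hki, par_flip_same S key i η hiS, hki, hη.1]
          intro h
          have : (1 : ZMod 2) = 0 := by
            have h2 : τ γ + 1 = τ γ + 0 := by rw [h, add_zero]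
            exact add_left_cancel h2
          exact absurd this (by decide)
    rw [hbij] at hsplit
    rw [Finset.card_insert_of_notMem hγ, pow_succ, ← ih', hsplit]
    ring

end B8

open B8 in
theorem second_moment {K X : Type} (t : ℕ) (S : Finset ℕ) (hS : S ⊆ range t)
    (key : ℕ → K) (Xs : Finset X) (hX : Xs.Nonempty) (Γ : X → Finset K) (q : ℕ)
    (hcard : ∀ x ∈ Xs, (Γ x).card ≤ q)
    (hdisj : ∀ x ∈ Xs, ∀ x' ∈ Xs, x ≠ x' → Disjoint (Γ x) (Γ x'))
    (hit : ∀ x ∈ Xs, ∀ γ ∈ Γ x, ∃ s ∈ S, key s = γ) (τ : K → ZMod 2) :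
    ((univ.filter (fun η : Fin t → Bool =>
      ((Xs.filter (fun x => ∀ γ ∈ Γ x,
        ∑ s ∈ S.filter (fun s => key s = γ), bt (extB η s) = τ γ)).card : ℝ)
        < Xs.card / (2 * 2 ^ q))).card : ℝ) ≤ 2 ^ t * (4 * 2 ^ q / Xs.card) := by
  set N : ℝ := 2 ^ t with hN
  have hNpos : 0 < N := by positivity
  set p : X → ℝ := fun x => 1 / 2 ^ (Γ x).card with hp
  have hp0 : ∀ x, 0 < p x := fun x => by simp only [hp]; positivity
  have hcx : ∀ x ∈ Xs, ((A S key τ t (Γ x)).card : ℝ) = N * p x := by
    intro x hx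
    have h := card_A S key τ t hS (Γ x) (hit x hx)
    have h2 : ((A S key τ t (Γ x)).card : ℝ) * 2 ^ (Γ x).card = 2 ^ t := by exact_mod_cast h
    simp only [hp]
    rw [mul_one_div, eq_div_iff (by positivity), h2]
  have hcxx : ∀ x ∈ Xs, ∀ x' ∈ Xs, x ≠ x' →
      ((A S key τ t (Γ x ∪ Γ x')).card : ℝ) = N * (p x * p x') := by
    intro x hx x' hx' hne
    have h := card_A S key τ t hS (Γ x ∪ Γ x') (by
      intro γ hγ
      rcases Finset.mem_union.1 hγ with h | h
      · exact hit x hx γ h
      · exact hit x' hx' γ h)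
    rw [Finset.card_union_of_disjoint (hdisj x hx x' hx' hne)] at h
    have h2 : ((A S key τ t (Γ x ∪ Γ x')).card : ℝ) * 2 ^ ((Γ x).card + (Γ x').card) = 2 ^ t := by
      exact_mod_cast h
    simp only [hp]
    rw [one_div_mul_one_div, mul_one_div, eq_div_iff (by positivity), ← pow_add, h2]
  set Z : (Fin t → Bool) → ℝ := fun η => ∑ x ∈ Xs, if η ∈ A S key τ t (Γ x) then (1 : ℝ) else 0
    with hZ
  have hZcard : ∀ η : Fin t → Bool, ((Xs.filter (fun x => ∀ γ ∈ Γ x,
        ∑ s ∈ S.filter (fun s => key s = γ), bt (extB η s) = τ γ)).card : ℝ) = Z η := by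
    intro η
    simp only [hZ, Finset.sum_boole]
    congr 3
    ext x
    simp only [A, par, Finset.mem_filter, Finset.mem_univ, true_and]
  set μ : ℝ := ∑ x ∈ Xs, p x with hμ
  have hXc : (0 : ℝ) < Xs.card := by exact_mod_cast hX.card_pos
  have hμ0 : (Xs.card : ℝ) / 2 ^ q ≤ μ := by
    rw [hμ, div_eq_mul_one_div, ← nsmul_eq_mul, ← Finset.sum_const]
    apply Finset.sum_le_sum
    intro x hx
    simp only [hp]
    apply one_div_le_one_div_of_le (by positivity)
    exact pow_le_pow_right₀ (by norm_num) (hcard x hx)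
  have hμpos : 0 < μ := lt_of_lt_of_le (by positivity) hμ0
  have hsum1 : ∑ η : Fin t → Bool, Z η = N * μ := by
    simp only [hZ]
    rw [Finset.sum_comm, hμ, Finset.mul_sum]
    apply Finset.sum_congr rfl
    intro x hx
    rw [← hcx x hx, Finset.sum_boole]
    congr 2
    ext η
    simp
  have hsum2 : ∑ η : Fin t → Bool, Z η ^ 2 ≤ N * μ ^ 2 + N * μ := by
    have h1 : ∀ η, Z η ^ 2 = ∑ x ∈ Xs, ∑ x' ∈ Xs,
        (if η ∈ A S key τ t (Γ x ∪ Γ x') then (1 : ℝ) else 0) := by
      intro η
      rw [sq]
      simp only [hZ]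
      rw [Finset.sum_mul_sum]
      apply Finset.sum_congr rfl
      intro x _
      apply Finset.sum_congr rfl
      intro x' _
      have h2 : η ∈ A S key τ t (Γ x ∪ Γ x') ↔ η ∈ A S key τ t (Γ x) ∧ η ∈ A S key τ t (Γ x') := by
        simp only [A, Finset.mem_filter, Finset.mem_univ, true_and, Finset.mem_union]
        constructor
        · intro h
          exact ⟨fun γ hγ => h γ (Or.inl hγ), fun γ hγ => h γ (Or.inr hγ)⟩
        · rintro ⟨h, h'⟩ γ (hγ | hγ)
          · exact h γ hγ
          · exact h' γ hγ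
      by_cases h3 : η ∈ A S key τ t (Γ x) <;> by_cases h4 : η ∈ A S key τ t (Γ x') <;>
        simp [h2, h3, h4]
    calc ∑ η : Fin t → Bool, Z η ^ 2 = ∑ η : Fin t → Bool, ∑ x ∈ Xs, ∑ x' ∈ Xs,
        (if η ∈ A S key τ t (Γ x ∪ Γ x') then (1 : ℝ) else 0) := by
          apply Finset.sum_congr rfl
          intro η _
          exact h1 η
      _ = ∑ x ∈ Xs, ∑ x' ∈ Xs, ((A S key τ t (Γ x ∪ Γ x')).card : ℝ) := by
          rw [Finset.sum_comm]
          apply Finset.sum_congr rfl
          intro x _
          rw [Finset.sum_comm]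
          apply Finset.sum_congr rfl
          intro x' _
          rw [Finset.sum_boole]
          congr 2
          ext η
          simp
      _ ≤ ∑ x ∈ Xs, ∑ x' ∈ Xs, (N * (p x * p x') + if x = x' then N * p x else 0) := by
          apply Finset.sum_le_sum
          intro x hx
          apply Finset.sum_le_sum
          intro x' hx'
          by_cases h : x = x'
          · subst h
            rw [Finset.union_self, if_pos rfl, hcx x hx]
            have : 0 ≤ N * (p x * p x) := by
              have := hp0 x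
              positivity
            linarith
          · rw [if_neg h, hcxx x hx x' hx' h, add_zero]
      _ = N * μ ^ 2 + N * μ := by
          have e1 : ∀ x ∈ Xs, ∑ x' ∈ Xs, (N * (p x * p x') + if x = x' then N * p x else 0) =
              N * p x * μ + N * p x := by
            intro x hx
            rw [Finset.sum_add_distrib, Finset.sum_ite_eq, if_pos hx]
            congr 1
            rw [hμ, Finset.mul_sum]
            apply Finset.sum_congr rfl
            intro x' _
            ring
          rw [Finset.sum_congr rfl e1, Finset.sum_add_distrib, ← Finset.sum_mul, ← Finset.mul_sum,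
            ← hμ]
          ring
  have hvar : ∑ η : Fin t → Bool, (Z η - μ) ^ 2 ≤ N * μ := by
    have e : ∀ η : Fin t → Bool, (Z η - μ) ^ 2 = Z η ^ 2 - 2 * μ * Z η + μ ^ 2 := by
      intro η; ring
    calc ∑ η : Fin t → Bool, (Z η - μ) ^ 2 =
        ∑ η : Fin t → Bool, (Z η ^ 2 - 2 * μ * Z η + μ ^ 2) :=
          Finset.sum_congr rfl (fun η _ => e η)
      _ = ∑ η : Fin t → Bool, Z η ^ 2 - 2 * μ * ∑ η : Fin t → Bool, Z η + N * μ ^ 2 := by
          rw [Finset.sum_add_distrib, Finset.sum_sub_distrib, ← Finset.mul_sum, Finset.sum_const,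
            Finset.card_univ, nsmul_eq_mul]
          congr 2
          simp [hN]
      _ ≤ N * μ := by
          rw [hsum1]
          nlinarith
  -- Chebyshev
  set Bd := univ.filter (fun η : Fin t → Bool => ((Xs.filter (fun x => ∀ γ ∈ Γ x,
        ∑ s ∈ S.filter (fun s => key s = γ), bt (extB η s) = τ γ)).card : ℝ)
        < Xs.card / (2 * 2 ^ q)) with hBd
  have hcheb : (Bd.card : ℝ) * (μ ^ 2 / 4) ≤ N * μ := by
    refine le_trans ?_ hvar
    calc (Bd.card : ℝ) * (μ ^ 2 / 4) = ∑ η ∈ Bd, μ ^ 2 / 4 := by
          rw [Finset.sum_const, nsmul_eq_mul]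
      _ ≤ ∑ η ∈ Bd, (Z η - μ) ^ 2 := by
          apply Finset.sum_le_sum
          intro η hη
          have h1 := (Finset.mem_filter.1 hη).2
          rw [hZcard] at h1
          have h2 : (Xs.card : ℝ) / (2 * 2 ^ q) = Xs.card / 2 ^ q / 2 := by
            rw [div_div, mul_comm]
          rw [h2] at h1
          have h3 : Z η ≤ μ / 2 := by linarith
          nlinarith
      _ ≤ ∑ η : Fin t → Bool, (Z η - μ) ^ 2 := by
          apply Finset.sum_le_sum_of_subset_of_nonneg (Finset.subset_univ _)
          intro η _ _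
          positivity
  have h1 : (Bd.card : ℝ) * μ ≤ 4 * N := by
    have h2 : ((Bd.card : ℝ) * μ) * μ ≤ (4 * N) * μ := by nlinarith
    exact le_of_mul_le_mul_right h2 hμpos
  have h3 : (Bd.card : ℝ) * (Xs.card / 2 ^ q) ≤ 4 * N :=
    le_trans (mul_le_mul_of_nonneg_left hμ0 (by positivity)) h1
  rw [← mul_div_assoc, le_div_iff₀ hXc]
  have h4 : (Bd.card : ℝ) * Xs.card = (Bd.card : ℝ) * (Xs.card / 2 ^ q) * 2 ^ q := by
    field_simp
  rw [h4]
  calc (Bd.card : ℝ) * (Xs.card / 2 ^ q) * 2 ^ q ≤ 4 * N * 2 ^ q :=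
        mul_le_mul_of_nonneg_right h3 (by positivity)
    _ = N * (4 * 2 ^ q) := by ring

end Pool.Agent.Helper55.PC
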